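import Pool.Agent.H948C.Ring

set_option autoImplicit false

/-!
# Modules whose tensor product with their canonical dual is the canonical module

Let `R = ℚ ⊕ V` with `V` the space of matrices of size two over `ℚ` and `V * V = 0`, and let
`M = ℚ² ⊕ ℚ²`, where a matrix maps the first summand to the second one. Then `R` is an Artinian local
ring (Cohen-Macaulay of dimension zero), every endomorphism of `M` is a homothety, and the evaluation
map from `M ⊗ Hom(M, ω)` to the canonical module `ω` is an isomorphism, but `M` is isomorphic neither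
to `R` nor to `ω`.
-/

open TensorProduct

namespace Pool.Agent.Results.MP_941405_ag.NeitherRingNorCanonical

/-- There are an Artinian local ring `R`, its canonical module `ω` (finitely generated, injective, with
simple socle) and a finitely generated module `M` with `M ⊗ Hom(M, ω) ≅ ω` such that `M` is isomorphic
neither to `R` nor to `ω`. -/
theorem result : ∃ (R : Type) (_ : CommRing R) (_ : IsLocalRing R) (_ : IsArtinianRing R) (ω M : Type)
    (_ : AddCommGroup ω) (_ : Module R ω) (_ : AddCommGroup M) (_ : Module R M),
    (Module.Finite R ω ∧ Module.Injective R ω ∧ ∃ x₀ : ω, x₀ ≠ 0 ∧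
      ∀ x : ω, (∀ r ∈ IsLocalRing.maximalIdeal R, r • x = 0) ↔ ∃ a : R, x = a • x₀) ∧
    Module.Finite R M ∧ Nonempty (M ⊗[R] (M →ₗ[R] ω) ≃ₗ[R] ω) ∧
    IsEmpty (M ≃ₗ[R] R) ∧ IsEmpty (M ≃ₗ[R] ω) :=
  Pool.Agent.H948C.main

end Pool.Agent.Results.MP_941405_ag.NeitherRingNorCanonical
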